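import Pool.Agent.Helper883_Stable.Hull
import Pool.Agent.Helper883_Good.Basic

/-!
# The filtration and the colouring
-/

namespace Pool.Agent.Helper883_Stable

open Cardinal Set

universe u

/-- `G` has a countable colouring of pairs without infinite monochromatic clique. -/
def BadG {V : Type u} (G : SimpleGraph V) : Prop :=
  ∃ C : V → V → ℕ, ∀ (k : ℕ) (x : ℕ → V),
    ¬ ∀ i j, i < j → G.Adj (x i) (x j) ∧ C (x i) (x j) = k

/-- The same for the part of `G` on a set of vertices. -/
def BadOn {V : Type u} (G : SimpleGraph V) (s : Set V) : Prop :=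
  ∃ C : V → V → ℕ, ∀ (k : ℕ) (x : ℕ → V), (∀ i, x i ∈ s) →
    ¬ ∀ i j, i < j → G.Adj (x i) (x j) ∧ C (x i) (x j) = k

theorem badG_of_countable {V : Type u} {G : SimpleGraph V} {ι : Type*} [Countable ι]
    (C : V → V → ι) (h : ∀ (k : ι) (x : ℕ → V),
      ¬ ∀ i j, i < j → G.Adj (x i) (x j) ∧ C (x i) (x j) = k) : BadG G := by
  obtain ⟨enc, henc⟩ := exists_injective_nat ι
  refine ⟨fun a b => enc (C a b), fun k x hx => ?_⟩
  apply h (C (x 0) (x 1)) x
  intro i j hij
  exact ⟨(hx i j hij).1, henc ((hx i j hij).2.trans (hx 0 1 Nat.zero_lt_one).2.symm)⟩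

theorem badOn_of_induce {V : Type u} {G : SimpleGraph V} {s : Set V} (h : BadG (G.induce s)) :
    BadOn G s := by
  classical
  obtain ⟨C, hC⟩ := h
  refine ⟨fun a b => if h : a ∈ s ∧ b ∈ s then C ⟨a, h.1⟩ ⟨b, h.2⟩ else 0, fun k x hx hcon => ?_⟩
  apply hC k (fun i => ⟨x i, hx i⟩)
  intro i j hij
  have h := hcon i j hij
  have h2 := h.2
  simp only [dif_pos (And.intro (hx i) (hx j))] at h2
  exact ⟨h.1, h2⟩

section Filt

variable {V : Type u} [LinearOrder V] [WellFoundedLT V] (G : SimpleGraph V)

/-- The cardinal attached to `v`. -/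
noncomputable def mu (v : V) : Cardinal.{u} := max 𝔠 #(Iic v)

/-- The hull attached to `v`. -/
noncomputable def Hv (v : V) : Set V := H G (mu v) (Iic v)

omit [WellFoundedLT V] in
theorem mu_mono {v w : V} (h : v ≤ w) : mu v ≤ mu w :=
  max_le_max le_rfl (mk_le_mk_of_subset (Iic_subset_Iic.2 h))

omit [WellFoundedLT V] in
theorem Hv_mono {v w : V} (h : v ≤ w) : Hv G v ⊆ Hv G w :=
  hull_mono (fun F => op_mono G (mu_mono h) F) (Iic_subset_Iic.2 h)

omit [WellFoundedLT V] in
theorem aleph0_le_mu (v : V) : ℵ₀ ≤ mu v := aleph0_le_continuum.trans (le_max_left _ _)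

omit [WellFoundedLT V] in
theorem card_Hv_le (v : V) : #(Hv G v) ≤ mu v :=
  card_hull_le (aleph0_le_mu v) (le_max_right _ _) (fun F => card_op_le G (aleph0_le_mu v) F)

omit [WellFoundedLT V] in
theorem Hv_closed (v : V) : Closed G (Hv G v) := H_closed G _ _

omit [WellFoundedLT V] in
theorem self_mem_Hv (v : V) : v ∈ Hv G v := subset_hull _ _ (mem_Iic.2 le_rfl)

/-- The rank of a vertex in the filtration. -/
noncomputable def rho (x : V) : V :=
  (wellFounded_lt : WellFounded ((· < ·) : V → V → Prop)).min {v | x ∈ Hv G v}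
    ⟨x, self_mem_Hv G x⟩

theorem mem_Hv_rho (x : V) : x ∈ Hv G (rho G x) :=
  WellFounded.min_mem (wellFounded_lt : WellFounded ((· < ·) : V → V → Prop)) {v | x ∈ Hv G v} _

theorem not_mem_Hv {x v : V} (h : v < rho G x) : x ∉ Hv G v := fun hx =>
  WellFounded.not_lt_min (wellFounded_lt : WellFounded ((· < ·) : V → V → Prop))
    {v | x ∈ Hv G v} hx h

variable {G} (hH : ¬ HasHalfGraph G)

/-- The definition of the trace of `x` on the hull attached to `v`. -/
noncomputable def tp (v x : V) : Set V := Classical.choose (exists_def hH (Hv_closed G v) x)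

omit [WellFoundedLT V] in
theorem def_tp (v x : V) : Def G (Hv G v) (tp hH v x) :=
  (Classical.choose_spec (exists_def hH (Hv_closed G v) x)).1

omit [WellFoundedLT V] in
theorem tp_spec (v x : V) : ∀ z ∈ Hv G v, (z ∈ tp hH v x ↔ G.Adj z x) :=
  (Classical.choose_spec (exists_def hH (Hv_closed G v) x)).2

/-- The least place where the trace at `w` is definable. -/
noncomputable def gg (x w : V) : V :=
  (wellFounded_lt : WellFounded ((· < ·) : V → V → Prop)).min
    {v | Def G (Hv G v) (tp hH w x)} ⟨w, def_tp hH w x⟩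

theorem def_gg (x w : V) : Def G (Hv G (gg hH x w)) (tp hH w x) :=
  WellFounded.min_mem (wellFounded_lt : WellFounded ((· < ·) : V → V → Prop))
    {v | Def G (Hv G v) (tp hH w x)} _

theorem gg_le {x w v : V} (h : Def G (Hv G v) (tp hH w x)) : gg hH x w ≤ v :=
  not_lt.1 (WellFounded.not_lt_min (wellFounded_lt : WellFounded ((· < ·) : V → V → Prop))
    {v | Def G (Hv G v) (tp hH w x)} h)

theorem gg_le_self (x w : V) : gg hH x w ≤ w := gg_le hH (def_tp hH w x)

omit [WellFoundedLT V] in
theorem tp_eq {v w x : V} (hvw : v ≤ w) (h : Def G (Hv G v) (tp hH w x)) :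
    tp hH v x = tp hH w x :=
  def_unique (Hv_closed G v) (def_tp hH v x) h fun z hz =>
    (tp_spec hH v x z hz).trans (tp_spec hH w x z (Hv_mono G hvw hz)).symm

theorem tp_gg (x w : V) : tp hH (gg hH x w) x = tp hH w x :=
  tp_eq hH (gg_le_self hH x w) (def_gg hH x w)

omit [WellFoundedLT V] in
theorem tp_symm {v x z : V} : z ∈ tp hH v x ↔ x ∈ tp hH v z :=
  ⟨fun h => symmetry hH (Hv_closed G v) (def_tp hH v x) (def_tp hH v z) (tp_spec hH v x)
    (tp_spec hH v z) h,
   fun h => symmetry hH (Hv_closed G v) (def_tp hH v z) (def_tp hH v x) (tp_spec hH v z)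
    (tp_spec hH v x) h⟩

/-- The set of jump points of `x`. -/
def Gam (x : V) : Set V := {v | v < rho G x ∧ gg hH x v = v}

theorem gam_finite (x : V) : (Gam hH x).Finite := by
  by_contra hinf
  obtain ⟨v, hv, hlt⟩ := Helper883_Good.exists_increasing_seq ((· < ·) : V → V → Prop)
    (S := Gam hH x) hinf
  have hmono : Monotone v := monotone_nat_of_le_succ fun n => (hlt n (n + 1) (Nat.lt_succ_self n)).le
  let N : Set V := ⋃ n, Hv G (v n)
  have hfin : ∀ F : Finset V, (∀ a ∈ F, a ∈ N) → ∃ n, ∀ a ∈ F, a ∈ Hv G (v n) := by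
    intro F hF
    choose! n hn using fun a (ha : a ∈ F) => mem_iUnion.1 (hF a ha)
    refine ⟨F.sup n, fun a ha => ?_⟩
    exact Hv_mono G (hmono (Finset.le_sup ha)) (hn a ha)
  have hN : Closed G N := by
    intro F hF y
    obtain ⟨n, hn⟩ := hfin F hF
    obtain ⟨a, ha, hay⟩ := Hv_closed G (v n) F hn y
    exact ⟨a, mem_iUnion.2 ⟨n, ha⟩, hay⟩
  obtain ⟨D, ⟨F, hF, hFD⟩, hD⟩ := exists_def hH hN x
  obtain ⟨n, hn⟩ := hfin F hF
  have hdef : Def G (Hv G (v n)) D := ⟨F, hn, hFD⟩
  have heq : tp hH (v (n + 1)) x = D :=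
    def_unique (Hv_closed G (v (n + 1))) (def_tp hH _ x)
      (hdef.mono (Hv_mono G (hmono (Nat.le_succ n)))) fun z hz =>
        (tp_spec hH _ x z hz).trans (hD z (mem_iUnion.2 ⟨n + 1, hz⟩)).symm
  have h1 : gg hH x (v (n + 1)) ≤ v n := gg_le hH (by rw [heq]; exact hdef)
  rw [(hv (n + 1)).2] at h1
  exact absurd (hlt n (n + 1) (Nat.lt_succ_self n)) (not_lt.2 h1)

theorem zigzag (x z : V) (v : V) (hvx : v < rho G x) (hvz : v < rho G z) :
    ∃ w, w ∈ Gam hH z ∧ w ∈ Gam hH x ∧ (z ∈ tp hH v x ↔ z ∈ tp hH w x) := by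
  induction v using WellFoundedLT.induction with
  | ind v ih =>
    rcases (gg_le_self hH x v).lt_or_eq with h | h
    · obtain ⟨w, h1, h2, h3⟩ := ih _ h (h.trans hvx) (h.trans hvz)
      refine ⟨w, h1, h2, ?_⟩
      rw [← h3, tp_gg]
    · rcases (gg_le_self hH z v).lt_or_eq with h' | h'
      · obtain ⟨w, h1, h2, h3⟩ := ih _ h' (h'.trans hvx) (h'.trans hvz)
        refine ⟨w, h1, h2, ?_⟩
        rw [← h3, tp_symm, ← tp_gg hH z v, tp_symm]
      · exact ⟨v, ⟨hvz, h'⟩, ⟨hvx, h⟩, Iff.rfl⟩

theorem meet {z x : V} (h : rho G z < rho G x) (hadj : G.Adj z x) :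
    rho G z ∈ Gam hH x ∨ ∃ v, v ∈ Gam hH z ∧ v ∈ Gam hH x ∧ z ∈ tp hH v x := by
  have hz : z ∈ tp hH (rho G z) x := (tp_spec hH _ x z (mem_Hv_rho G z)).2 hadj
  rcases (gg_le_self hH x (rho G z)).lt_or_eq with h1 | h1
  · right
    obtain ⟨w, h2, h3, h4⟩ := zigzag hH x z _ (h1.trans h) h1
    refine ⟨w, h2, h3, h4.1 ?_⟩
    rw [tp_gg]
    exact hz
  · left
    exact ⟨h, h1⟩

omit [LinearOrder V] [WellFoundedLT V] in
theorem card_def_le {μ : Cardinal.{u}} (hμ : ℵ₀ ≤ μ) {N : Set V} (hN : #N ≤ μ) :
    #{D : Set V // Def G N D} ≤ μ := by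
  have h1 : #(⋃ F : {F : Finset V // ∀ a ∈ F, a ∈ N}, {D : Set V | DefBy G F.1 D}) ≤ μ := by
    refine (mk_iUnion_le _).trans ?_
    refine (mul_le_mul' (card_finsets_le hμ hN)
      (ciSup_le' fun (F : {F : Finset V // ∀ a ∈ F, a ∈ N}) =>
        (finite_defBy G F.1).lt_aleph0.le.trans hμ)).trans ?_
    rw [mul_eq_self hμ]
  refine le_trans (mk_le_mk_of_subset ?_) h1
  rintro D ⟨F, hF, hFD⟩
  exact mem_iUnion.2 ⟨⟨F, hF⟩, hFD⟩

omit [WellFoundedLT V] in
/-- The generic family attached to `v`. -/
theorem exists_family (hG : ∀ S : Set V, G.IsClique S → S.Countable) (v : V) :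
    ∃ Y : Set V, #Y ≤ mu v ∧ ∃ y : Set V → V, (∀ x, x ∉ Hv G v → y (tp hH v x) ∈ Y) ∧
      ∀ z x, z ∉ Hv G v → x ∉ Hv G v → z ∈ tp hH v x →
        G.Adj (y (tp hH v z)) (y (tp hH v x)) := by
  classical
  let J : Type u := {D : Set V // ∃ x, x ∉ Hv G v ∧ D = tp hH v x}
  have hJ : #J ≤ mu v := by
    refine le_trans (mk_subtype_mono ?_) (card_def_le (G := G) (aleph0_le_mu v) (card_Hv_le G v))
    rintro D ⟨x, _, rfl⟩
    exact def_tp hH v x
  have hlarge : ∀ j : J, Large G (mu v) j.1 := by
    rintro ⟨D, x, hx, rfl⟩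
    exact large_of_not_mem G (def_tp hH v x) hx (tp_spec hH v x)
  obtain ⟨r, hr, y, hy1, hy2⟩ := exists_generic G (aleph0_le_mu v) (card_Hv_le G v) hJ
    (fun j => j.1) hlarge
  have hself : ∀ x, x ∉ Hv G v → x ∉ tp hH v x := fun x hx =>
    not_self G hG (aleph_one_le_continuum.trans (le_max_left _ _)) (card_Hv_le G v)
      (def_tp hH v x) (hlarge ⟨_, x, hx, rfl⟩) (tp_spec hH v x)
  have hne : Nonempty V := ⟨v⟩
  refine ⟨Set.range y, mk_range_le.trans hJ,
    fun D => if h : ∃ x, x ∉ Hv G v ∧ D = tp hH v x then y ⟨D, h⟩ else v, ?_, ?_⟩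
  · intro x hx
    have h : ∃ x', x' ∉ Hv G v ∧ tp hH v x = tp hH v x' := ⟨x, hx, rfl⟩
    simp only
    rw [dif_pos h]
    exact ⟨_, rfl⟩
  · intro z x hz hx hzx
    have h1 : ∃ x', x' ∉ Hv G v ∧ tp hH v x = tp hH v x' := ⟨x, hx, rfl⟩
    have h2 : ∃ x', x' ∉ Hv G v ∧ tp hH v z = tp hH v x' := ⟨z, hz, rfl⟩
    simp only
    rw [dif_pos h1, dif_pos h2]
    have hcongr : ∀ (x' : V) (h : ∃ x'', x'' ∉ Hv G v ∧ tp hH v x' = tp hH v x''),
        ∀ w, y ⟨tp hH v x', h⟩ ∈ tp hH v w ↔ x' ∈ tp hH v w := by
      intro x' h w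
      refine (def_tp hH v w).congr fun a ha => ?_
      exact ((hy1 ⟨_, h⟩).2 a ha).symm.trans (tp_spec hH v x' a ha)
    rcases trichotomous_of r (⟨tp hH v z, h2⟩ : J) ⟨tp hH v x, h1⟩ with h | h | h
    · exact (hy2 _ _ h).2.1 ((hcongr z h2 x).2 hzx)
    · exfalso
      have h3 : tp hH v z = tp hH v x := congrArg Subtype.val h
      rw [← h3] at hzx
      exact hself z hz hzx
    · exact ((hy2 _ _ h).2.1 ((hcongr x h1 z).2 ((tp_symm hH).1 hzx))).symm

include hH in
/-- The inductive step. -/
theorem step (hG : ∀ S : Set V, G.IsClique S → S.Countable)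
    (hmu : ∀ v : V, mu v < #V) (IH : ∀ s : Set V, #s < #V → BadOn G s) : BadG G := by
  classical
  have h0 : ∀ v, BadOn G (Hv G v) := fun v => IH _ ((card_Hv_le G v).trans_lt (hmu v))
  choose C0 hC0 using h0
  have hfam := exists_family hH hG
  choose Y hY y hyY hyadj using hfam
  have h1 : ∀ v, BadOn G (Y v) := fun v => IH _ ((hY v).trans_lt (hmu v))
  choose C1 hC1 using h1
  have he : ∀ x : V, ∃ e : V → ℕ, Set.InjOn e (Gam hH x) := fun x =>
    countable_iff_exists_injOn.1 (gam_finite hH x).countable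
  choose e he using he
  let Q : V → V → V → Prop := fun a b v => v ∈ Gam hH a ∧ v ∈ Gam hH b ∧ a ∈ tp hH v b
  let C : V → V → ℕ × ℕ × ℕ × ℕ := fun a b =>
    if rho G a = rho G b then (0, C0 (rho G a) a b, 0, 0)
    else if rho G b < rho G a then (3, 0, 0, 0)
    else if rho G a ∈ Gam hH b then (1, e b (rho G a), 0, 0)
    else if h : ∃ v, Q a b v then
      (2, e a (Classical.choose h), e b (Classical.choose h),
        C1 (Classical.choose h) (y (Classical.choose h) (tp hH (Classical.choose h) a))
          (y (Classical.choose h) (tp hH (Classical.choose h) b)))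
    else (4, 0, 0, 0)
  apply badG_of_countable C
  intro k x hx
  by_cases c0 : rho G (x 0) = rho G (x 1)
  · -- all ranks are equal
    have hk : k.1 = 0 := by
      rw [← (hx 0 1 Nat.zero_lt_one).2]
      simp only [C, if_pos c0]
    have hall : ∀ i j, i < j → rho G (x i) = rho G (x j) := by
      intro i j hij
      by_contra hne
      have h2 := congrArg Prod.fst (hx i j hij).2
      simp only [C, if_neg hne, hk] at h2
      split_ifs at h2
    have hall0 : ∀ i, rho G (x i) = rho G (x 0) := by
      intro i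
      rcases Nat.eq_zero_or_pos i with rfl | hi
      · rfl
      · exact (hall 0 i hi).symm
    apply hC0 (rho G (x 0)) k.2.1 x
    · intro i
      rw [← hall0 i]
      exact mem_Hv_rho G (x i)
    · intro i j hij
      refine ⟨(hx i j hij).1, ?_⟩
      have h2 := congrArg (fun t => t.2.1) (hx i j hij).2
      simp only [C, if_pos (hall i j hij)] at h2
      rw [hall0 i] at h2
      exact h2
  · rcases lt_or_gt_of_ne c0 with c1 | c1
    · have c1' : ¬ rho G (x 1) < rho G (x 0) := not_lt_of_gt c1
      by_cases c2 : rho G (x 0) ∈ Gam hH (x 1)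
      · have hk : k.1 = 1 := by
          rw [← (hx 0 1 Nat.zero_lt_one).2]
          simp only [C, if_neg c0, if_neg c1', if_pos c2]
        have hall : ∀ i j, i < j → rho G (x i) ∈ Gam hH (x j) ∧
            e (x j) (rho G (x i)) = k.2.1 := by
          intro i j hij
          have h2 := (hx i j hij).2
          by_cases d0 : rho G (x i) = rho G (x j)
          · simp only [C, if_pos d0] at h2
            have := congrArg Prod.fst h2
            simp only [hk] at this
            exact absurd this (by norm_num)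
          · by_cases d1 : rho G (x j) < rho G (x i)
            · simp only [C, if_neg d0, if_pos d1] at h2
              have := congrArg Prod.fst h2
              simp only [hk] at this
              exact absurd this (by norm_num)
            · by_cases d2 : rho G (x i) ∈ Gam hH (x j)
              · simp only [C, if_neg d0, if_neg d1, if_pos d2] at h2
                exact ⟨d2, congrArg (fun t => t.2.1) h2⟩
              · simp only [C, if_neg d0, if_neg d1, if_neg d2] at h2
                have := congrArg Prod.fst h2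
                simp only [hk] at this
                split_ifs at this <;> exact absurd this (by norm_num)
        have e1 := hall 0 2 (by norm_num)
        have e2 := hall 1 2 (by norm_num)
        exact c0 (he (x 2) e1.1 e2.1 (e1.2.trans e2.2.symm))
      · have hmeet : ∃ v, Q (x 0) (x 1) v := by
          rcases meet hH c1 (hx 0 1 Nat.zero_lt_one).1 with h | ⟨v, h3, h4, h5⟩
          · exact absurd h c2
          · exact ⟨v, h3, h4, h5⟩
        have hk : k.1 = 2 := by
          rw [← (hx 0 1 Nat.zero_lt_one).2]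
          simp only [C, if_neg c0, if_neg c1', if_neg c2, dif_pos hmeet]
        have hall : ∀ i j, i < j → ∃ v, Q (x i) (x j) v ∧ e (x i) v = k.2.1 ∧
            e (x j) v = k.2.2.1 ∧
            C1 v (y v (tp hH v (x i))) (y v (tp hH v (x j))) = k.2.2.2 := by
          intro i j hij
          have h2 := (hx i j hij).2
          by_cases d0 : rho G (x i) = rho G (x j)
          · simp only [C, if_pos d0] at h2
            have := congrArg Prod.fst h2
            simp only [hk] at this
            exact absurd this (by norm_num)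
          · by_cases d1 : rho G (x j) < rho G (x i)
            · simp only [C, if_neg d0, if_pos d1] at h2
              have := congrArg Prod.fst h2
              simp only [hk] at this
              exact absurd this (by norm_num)
            · by_cases d2 : rho G (x i) ∈ Gam hH (x j)
              · simp only [C, if_neg d0, if_neg d1, if_pos d2] at h2
                have := congrArg Prod.fst h2
                simp only [hk] at this
                exact absurd this (by norm_num)
              · by_cases d3 : ∃ v, Q (x i) (x j) v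
                · simp only [C, if_neg d0, if_neg d1, if_neg d2, dif_pos d3] at h2
                  exact ⟨Classical.choose d3, Classical.choose_spec d3,
                    congrArg (fun t => t.2.1) h2, congrArg (fun t => t.2.2.1) h2,
                    congrArg (fun t => t.2.2.2) h2⟩
                · simp only [C, if_neg d0, if_neg d1, if_neg d2, dif_neg d3] at h2
                  have := congrArg Prod.fst h2
                  simp only [hk] at this
                  exact absurd this (by norm_num)
        have hne : Nonempty V := ⟨x 0⟩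
        choose! v hQ hv1 hv2 hv3 using hall
        have hv : ∀ i j, i < j → v i j = v 0 1 := by
          intro i j hij
          have e1 : v 0 j = v 0 1 :=
            he (x 0) (hQ 0 j (by omega)).1 (hQ 0 1 (by omega)).1
              ((hv1 0 j (by omega)).trans (hv1 0 1 (by omega)).symm)
          have e2 : v i j = v 0 j :=
            he (x j) (hQ i j hij).2.1 (hQ 0 j (by omega)).2.1
              ((hv2 i j hij).trans (hv2 0 j (by omega)).symm)
          rw [e2, e1]
        have hnot : ∀ i, x i ∉ Hv G (v 0 1) := by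
          intro i
          have h3 := (hQ i (i + 1) (Nat.lt_succ_self i)).1
          rw [hv i (i + 1) (Nat.lt_succ_self i)] at h3
          exact not_mem_Hv G h3.1
        apply hC1 (v 0 1) k.2.2.2 (fun i => y (v 0 1) (tp hH (v 0 1) (x i)))
        · intro i
          exact hyY (v 0 1) (x i) (hnot i)
        · intro i j hij
          have h3 := hQ i j hij
          have h4 := hv3 i j hij
          rw [hv i j hij] at h3 h4
          exact ⟨hyadj (v 0 1) (x i) (x j) (hnot i) (hnot j) h3.2.2, h4⟩
    · have hk : k.1 = 3 := by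
        rw [← (hx 0 1 Nat.zero_lt_one).2]
        simp only [C, if_neg c0, if_pos c1]
      have hall : ∀ i j, i < j → rho G (x j) < rho G (x i) := by
        intro i j hij
        by_contra hne
        have h2 := congrArg Prod.fst (hx i j hij).2
        simp only [C, if_neg hne, hk] at h2
        split_ifs at h2 <;> simp at h2
      exact Helper883_Good.not_decreasing_seq ((· < ·) : V → V → Prop) (fun i => rho G (x i)) hall

end Filt

end Pool.Agent.Helper883_Stable
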