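import Mathlib

/-!
# Graphs without infinite half graphs: definability of traces and symmetry
-/

namespace Pool.Agent.Helper883_Stable

open Filter

universe u

variable {V : Type u}

/-- Infinite Ramsey theorem for pairs. -/
theorem ramsey {κ : Type*} [Finite κ] (col : ℕ → ℕ → κ) :
    ∃ g : ℕ → ℕ, StrictMono g ∧ ∃ k : κ, ∀ i j, i < j → col (g i) (g j) = k := by
  classical
  let U : Ultrafilter ℕ := hyperfilter ℕ
  have h1 : ∀ i, ∃ k : κ, ∀ᶠ j in (U : Filter ℕ), col i j = k := by
    intro i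
    obtain ⟨k, hk⟩ := (U.map (col i)).eq_pure_of_finite
    refine ⟨k, ?_⟩
    have : ({k} : Set κ) ∈ U.map (col i) := by
      rw [hk]; exact Set.mem_singleton _
    exact this
  choose K hK using h1
  have h2 : ∃ k : κ, ∀ᶠ i in (U : Filter ℕ), K i = k := by
    obtain ⟨k, hk⟩ := (U.map K).eq_pure_of_finite
    refine ⟨k, ?_⟩
    have : ({k} : Set κ) ∈ U.map K := by
      rw [hk]; exact Set.mem_singleton _
    exact this
  obtain ⟨k, hk⟩ := h2
  obtain ⟨g, hg1, hg2⟩ := exists_seq_of_forall_finset_exists (fun i => K i = k)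
    (fun i j => i < j ∧ col i j = k) (by
      intro s hs
      have hgt : ∀ i ∈ s, ∀ᶠ j in (U : Filter ℕ), i < j ∧ col i j = k := by
        intro i hi
        have ha : ∀ᶠ j in (U : Filter ℕ), i < j := by
          have : ∀ᶠ j in (Filter.cofinite : Filter ℕ), i < j := by
            rw [Nat.cofinite_eq_atTop]; exact Filter.eventually_gt_atTop i
          exact Filter.hyperfilter_le_cofinite this
        filter_upwards [ha, hK i] with j hj1 hj2
        exact ⟨hj1, by rw [hj2]; exact hs i hi⟩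
      have hall : ∀ᶠ j in (U : Filter ℕ), ∀ i ∈ s, i < j ∧ col i j = k :=
        (Filter.eventually_all_finset s).2 hgt
      obtain ⟨y, hy⟩ := (hk.and hall).exists
      exact ⟨y, hy.1, hy.2⟩)
  exact ⟨g, strictMono_nat_of_lt_succ (fun n => (hg2 n (n+1) (Nat.lt_succ_self n)).1), k,
    fun i j hij => (hg2 i j hij).2⟩

/-- `G` contains an infinite half graph: vertices `a i`, `b j` such that `a i` and `b j` are
adjacent exactly when `i ≤ j`. -/
def HasHalfGraph (G : SimpleGraph V) : Prop :=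
  ∃ a b : ℕ → V, ∀ i j, G.Adj (a i) (b j) ↔ i ≤ j

/-- Vertices `x` and `y` have the same neighbours in `F`. -/
def Same (G : SimpleGraph V) (F : Finset V) (x y : V) : Prop :=
  ∀ a ∈ F, (G.Adj a x ↔ G.Adj a y)

theorem Same.symm {G : SimpleGraph V} {F : Finset V} {x y : V} (h : Same G F x y) :
    Same G F y x := fun a ha => (h a ha).symm

theorem Same.trans {G : SimpleGraph V} {F : Finset V} {x y z : V} (h : Same G F x y)
    (h' : Same G F y z) : Same G F x z := fun a ha => (h a ha).trans (h' a ha)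

/-- `D` is a union of classes of the relation of having the same neighbours in `F`. -/
def DefBy (G : SimpleGraph V) (F : Finset V) (D : Set V) : Prop :=
  ∀ y y', Same G F y y' → (y ∈ D ↔ y' ∈ D)

/-- `D` is definable over `N`. -/
def Def (G : SimpleGraph V) (N : Set V) (D : Set V) : Prop :=
  ∃ F : Finset V, (∀ a ∈ F, a ∈ N) ∧ DefBy G F D

/-- Every vertex has, over every finite subset of `N`, the same neighbours as some element
of `N`. -/
def Closed (G : SimpleGraph V) (N : Set V) : Prop :=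
  ∀ F : Finset V, (∀ a ∈ F, a ∈ N) → ∀ x, ∃ a ∈ N, Same G F a x

theorem Def.mono {G : SimpleGraph V} {N N' : Set V} (hNN : N ⊆ N') {D : Set V}
    (h : Def G N D) : Def G N' D := by
  obtain ⟨F, hF, hD⟩ := h
  exact ⟨F, fun a ha => hNN (hF a ha), hD⟩

/-- Definability of traces. -/
theorem exists_def {G : SimpleGraph V} (hG : ¬ HasHalfGraph G) {N : Set V} (hN : Closed G N)
    (x : V) : ∃ D, Def G N D ∧ ∀ z ∈ N, (z ∈ D ↔ G.Adj z x) := by
  classical
  by_contra hcon
  -- for each finite set of parameters there is a pair which is not separated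
  have hpair : ∀ F : Finset V, (∀ a ∈ F, a ∈ N) → ∃ z ∈ N, ∃ z' ∈ N, G.Adj z x ∧ ¬ G.Adj z' x ∧
      Same G F z z' := by
    intro F hF
    by_contra hno
    push Not at hno
    apply hcon
    refine ⟨{y | ∃ z ∈ N, G.Adj z x ∧ Same G F z y}, ⟨F, hF, ?_⟩, ?_⟩
    · intro y y' hyy'
      constructor
      · rintro ⟨z, hz, h1, h2⟩
        exact ⟨z, hz, h1, h2.trans hyy'⟩
      · rintro ⟨z, hz, h1, h2⟩
        exact ⟨z, hz, h1, h2.trans hyy'.symm⟩
    · intro z hz
      constructor
      · rintro ⟨z0, hz0, h1, h2⟩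
        by_contra h3
        exact hno z0 hz0 z hz h1 h3 h2
      · intro h
        exact ⟨z, hz, h, fun a _ => Iff.rfl⟩
  obtain ⟨f, hf1, hf2⟩ := exists_seq_of_forall_finset_exists
    (fun t : V × V × V => (t.1 ∈ N ∧ t.2.1 ∈ N ∧ t.2.2 ∈ N) ∧ (G.Adj t.1 x ∧ ¬ G.Adj t.2.1 x) ∧
      G.Adj t.1 t.2.2 ∧ ¬ G.Adj t.2.1 t.2.2)
    (fun t t' : V × V × V => (G.Adj t.2.2 t'.1 ↔ G.Adj t.2.2 t'.2.1) ∧ G.Adj t.1 t'.2.2 ∧
      ¬ G.Adj t.2.1 t'.2.2) (by
      intro s hs
      obtain ⟨z, hz, z', hz', h1, h2, h3⟩ := hpair (s.image fun t => t.2.2) (by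
        intro a ha
        obtain ⟨t, ht, rfl⟩ := Finset.mem_image.1 ha
        exact (hs t ht).1.2.2)
      obtain ⟨a, ha, h4⟩ := hN (insert z (insert z' (s.image (fun t => t.1) ∪
        s.image fun t => t.2.1))) (by
          intro b hb
          simp only [Finset.mem_insert, Finset.mem_union, Finset.mem_image] at hb
          rcases hb with rfl | rfl | ⟨t, ht, rfl⟩ | ⟨t, ht, rfl⟩
          · exact hz
          · exact hz'
          · exact (hs t ht).1.1
          · exact (hs t ht).1.2.1) x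
      refine ⟨(z, z', a), ⟨⟨hz, hz', ha⟩, ⟨h1, h2⟩, ?_, ?_⟩, ?_⟩
      · exact (h4 z (by simp)).2 h1
      · exact fun h => h2 ((h4 z' (by simp)).1 h)
      · intro t ht
        refine ⟨h3 t.2.2 (Finset.mem_image.2 ⟨t, ht, rfl⟩), ?_, ?_⟩
        · refine (h4 t.1 ?_).2 (hs t ht).2.1.1
          simp only [Finset.mem_insert, Finset.mem_union, Finset.mem_image]
          exact Or.inr (Or.inr (Or.inl ⟨t, ht, rfl⟩))
        · intro h
          refine (hs t ht).2.1.2 ((h4 t.2.1 ?_).1 h)
          simp only [Finset.mem_insert, Finset.mem_union, Finset.mem_image]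
          exact Or.inr (Or.inr (Or.inr ⟨t, ht, rfl⟩)))
  obtain ⟨g, hg, k, hk⟩ := ramsey (fun i j => decide (G.Adj (f i).2.2 (f j).1))
  apply hG
  cases k with
  | false =>
    refine ⟨fun i => (f (g i)).1, fun j => (f (g j)).2.2, fun i j => ?_⟩
    constructor
    · intro h
      by_contra hij
      rw [not_le] at hij
      have := hk j i hij
      simp only [decide_eq_false_iff_not] at this
      exact this h.symm
    · intro hij
      rcases hij.lt_or_eq with h | rfl
      · exact (hf2 _ _ (hg h)).2.1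
      · exact (hf1 (g i)).2.2.1
  | true =>
    refine ⟨fun i => (f (g i)).2.2, fun j => (f (g (j + 1))).2.1, fun i j => ?_⟩
    constructor
    · intro h
      by_contra hij
      rw [not_le] at hij
      have h1 : g (j + 1) ≤ g i := hg.monotone hij
      rcases h1.lt_or_eq with h2 | h2
      · exact (hf2 _ _ h2).2.2 h.symm
      · have h' : G.Adj (f (g i)).2.2 (f (g (j + 1))).2.1 := h
        rw [h2] at h'
        exact (hf1 (g i)).2.2.2 h'.symm
    · intro hij
      have hlt : i < j + 1 := by omega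
      have := hk i (j + 1) hlt
      simp only [decide_eq_true_eq] at this
      exact (hf2 _ _ (hg hlt)).1.1 this

/-- Sets definable over a closed set `N` are determined by their elements in `N`. -/
theorem def_unique {G : SimpleGraph V} {N : Set V} (hN : Closed G N) {D D' : Set V}
    (hD : Def G N D) (hD' : Def G N D') (h : ∀ z ∈ N, (z ∈ D ↔ z ∈ D')) : D = D' := by
  classical
  obtain ⟨F, hF, hFD⟩ := hD
  obtain ⟨F', hF', hFD'⟩ := hD'
  ext y
  obtain ⟨a, ha, hay⟩ := hN (F ∪ F') (by
    intro b hb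
    rcases Finset.mem_union.1 hb with hb | hb
    · exact hF b hb
    · exact hF' b hb) y
  have h1 : y ∈ D ↔ a ∈ D := hFD y a fun b hb => (hay b (Finset.mem_union_left _ hb)).symm
  have h2 : y ∈ D' ↔ a ∈ D' := hFD' y a fun b hb => (hay b (Finset.mem_union_right _ hb)).symm
  rw [h1, h2, h a ha]

/-- If `D` is definable over `N` and `x`, `y` have the same neighbours in `N` then `x ∈ D` iff
`y ∈ D`. -/
theorem Def.congr {G : SimpleGraph V} {N D : Set V} (hD : Def G N D) {x y : V}
    (h : ∀ a ∈ N, (G.Adj a x ↔ G.Adj a y)) : x ∈ D ↔ y ∈ D := by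
  obtain ⟨F, hF, hFD⟩ := hD
  exact hFD x y fun a ha => h a (hF a ha)

/-- Symmetry. -/
theorem symmetry {G : SimpleGraph V} (hG : ¬ HasHalfGraph G) {N : Set V} (hN : Closed G N)
    {x z : V} {Dx Dz : Set V} (hDx : Def G N Dx) (hDz : Def G N Dz)
    (hx : ∀ a ∈ N, (a ∈ Dx ↔ G.Adj a x)) (hz : ∀ a ∈ N, (a ∈ Dz ↔ G.Adj a z))
    (h : z ∈ Dx) : x ∈ Dz := by
  classical
  by_contra hcon
  obtain ⟨F, hF, hFD⟩ := hDx
  obtain ⟨F', hF', hFD'⟩ := hDz
  obtain ⟨f, hf1, hf2⟩ := exists_seq_of_forall_finset_exists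
    (fun t : V × V => (t.1 ∈ N ∧ t.2 ∈ N) ∧ (t.1 ∈ Dx ∧ t.2 ∉ Dz) ∧ G.Adj t.1 t.2)
    (fun t t' : V × V => ¬ G.Adj t.2 t'.1 ∧ G.Adj t.1 t'.2) (by
      intro s hs
      -- choose the element imitating `z`
      obtain ⟨a, ha, haz⟩ := hN (F ∪ s.image fun t => t.2) (by
        intro b hb
        simp only [Finset.mem_union, Finset.mem_image] at hb
        rcases hb with hb | ⟨t, ht, rfl⟩
        · exact hF b hb
        · exact (hs t ht).1.2) z
      have haDx : a ∈ Dx :=
        (hFD a z fun b hb => haz b (Finset.mem_union_left _ hb)).2 h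
      obtain ⟨c, hc, hcx⟩ := hN (insert a (F' ∪ s.image fun t => t.1)) (by
        intro b hb
        simp only [Finset.mem_insert, Finset.mem_union, Finset.mem_image] at hb
        rcases hb with rfl | hb | ⟨t, ht, rfl⟩
        · exact ha
        · exact hF' b hb
        · exact (hs t ht).1.1) x
      have hcDz : c ∉ Dz := fun hc' => hcon ((hFD' c x fun b hb => hcx b (by simp [hb])).1 hc')
      refine ⟨(a, c), ⟨⟨ha, hc⟩, ⟨haDx, hcDz⟩, ?_⟩, ?_⟩
      · exact (hcx a (by simp)).2 ((hx a ha).1 haDx)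
      · intro t ht
        constructor
        · intro hadj
          have h1 : G.Adj t.2 z := (haz t.2 (by
            simp only [Finset.mem_union, Finset.mem_image]
            exact Or.inr ⟨t, ht, rfl⟩)).1 hadj
          exact (hs t ht).2.1.2 ((hz t.2 (hs t ht).1.2).2 h1)
        · refine (hcx t.1 ?_).2 ((hx t.1 (hs t ht).1.1).1 (hs t ht).2.1.1)
          simp only [Finset.mem_insert, Finset.mem_union, Finset.mem_image]
          exact Or.inr (Or.inr ⟨t, ht, rfl⟩))
  apply hG
  refine ⟨fun i => (f i).1, fun j => (f j).2, fun i j => ?_⟩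
  constructor
  · intro hadj
    by_contra hij
    rw [not_le] at hij
    exact (hf2 _ _ hij).1 hadj.symm
  · intro hij
    rcases hij.lt_or_eq with h | rfl
    · exact (hf2 _ _ h).2
    · exact (hf1 i).2.2

end Pool.Agent.Helper883_Stable
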