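import Pool.Agent.Helper883_Universal.Base
import Pool.Agent.Helper883_Stable.HalfGraph

/-!
# Hulls and generic families
-/

namespace Pool.Agent.Helper883_Stable

open Cardinal Set

universe u

variable {V : Type u}

/-- The stages of the construction of the hull. -/
def stage (op : Finset V → Set V) (S : Set V) : ℕ → Set V
  | 0 => S
  | n + 1 => stage op S n ∪ ⋃ F : {F : Finset V // ∀ a ∈ F, a ∈ stage op S n}, op F.1

/-- The hull of `S` under an operation assigning sets to finite sets. -/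
def hull (op : Finset V → Set V) (S : Set V) : Set V := ⋃ n, stage op S n

theorem stage_mono_nat (op : Finset V → Set V) (S : Set V) : Monotone (stage op S) :=
  monotone_nat_of_le_succ fun _ => Set.subset_union_left

theorem subset_hull (op : Finset V → Set V) (S : Set V) : S ⊆ hull op S :=
  fun _ hx => mem_iUnion.2 ⟨0, hx⟩

theorem hull_closed (op : Finset V → Set V) (S : Set V) (F : Finset V)
    (hF : ∀ a ∈ F, a ∈ hull op S) : op F ⊆ hull op S := by
  classical
  have h : ∃ n, ∀ a ∈ F, a ∈ stage op S n := by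
    choose! n hn using fun a (ha : a ∈ F) => mem_iUnion.1 (hF a ha)
    refine ⟨F.sup n, fun a ha => ?_⟩
    exact stage_mono_nat op S (Finset.le_sup ha) (hn a ha)
  obtain ⟨n, hn⟩ := h
  intro x hx
  refine mem_iUnion.2 ⟨n + 1, Or.inr ?_⟩
  exact mem_iUnion.2 ⟨⟨F, hn⟩, hx⟩

theorem hull_mono {op op' : Finset V → Set V} {S S' : Set V} (hop : ∀ F, op F ⊆ op' F)
    (hS : S ⊆ S') : hull op S ⊆ hull op' S' := by
  have h : ∀ n, stage op S n ⊆ stage op' S' n := by
    intro n
    induction n with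
    | zero => exact hS
    | succ n ih =>
      rintro x (hx | hx)
      · exact Or.inl (ih hx)
      · obtain ⟨F, hxF⟩ := mem_iUnion.1 hx
        exact Or.inr (mem_iUnion.2 ⟨⟨F.1, fun a ha => ih (F.2 a ha)⟩, hop _ hxF⟩)
  intro x hx
  obtain ⟨n, hn⟩ := mem_iUnion.1 hx
  exact mem_iUnion.2 ⟨n, h n hn⟩

theorem card_finsets_le {μ : Cardinal.{u}} (hμ : ℵ₀ ≤ μ) {A : Set V} (hA : #A ≤ μ) :
    #{F : Finset V // ∀ a ∈ F, a ∈ A} ≤ μ := by
  classical
  have hsurj : Function.Surjective (fun l : List A =>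
      (⟨(l.map Subtype.val).toFinset, by
        intro a ha
        simp only [List.mem_toFinset, List.mem_map] at ha
        obtain ⟨b, _, rfl⟩ := ha
        exact b.2⟩ : {F : Finset V // ∀ a ∈ F, a ∈ A})) := by
    rintro ⟨F, hF⟩
    refine ⟨F.attach.toList.map fun a => ⟨a.1, hF a.1 a.2⟩, ?_⟩
    apply Subtype.ext
    ext a
    simp only [List.map_map, List.mem_toFinset, List.mem_map, Finset.mem_toList,
      Finset.mem_attach, Function.comp_apply, true_and, Subtype.exists, exists_prop,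
      exists_eq_right]
  refine (mk_le_of_surjective hsurj).trans ?_
  exact (mk_list_le_max A).trans (max_le hμ hA)

theorem card_hull_le {μ : Cardinal.{u}} (hμ : ℵ₀ ≤ μ) {op : Finset V → Set V} {S : Set V}
    (hS : #S ≤ μ) (hop : ∀ F, #(op F) ≤ μ) : #(hull op S) ≤ μ := by
  have h : ∀ n, #(stage op S n) ≤ μ := by
    intro n
    induction n with
    | zero => exact hS
    | succ n ih =>
      refine (mk_union_le _ _).trans ?_
      have h2 : #(⋃ F : {F : Finset V // ∀ a ∈ F, a ∈ stage op S n}, op F.1) ≤ μ := by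
        refine (mk_iUnion_le _).trans ?_
        refine (mul_le_mul' (card_finsets_le hμ ih)
          (ciSup_le' fun (F : {F : Finset V // ∀ a ∈ F, a ∈ stage op S n}) => hop F.1)).trans ?_
        rw [mul_eq_self hμ]
      refine (add_le_add ih h2).trans ?_
      rw [add_eq_self hμ]
  have h3 := mk_iUnion_le_lift (fun n => stage op S n)
  simp only [mk_nat, lift_aleph0, lift_uzero] at h3
  refine h3.trans ?_
  refine (mul_le_mul' hμ (ciSup_le' h)).trans ?_
  rw [mul_eq_self hμ]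

/-! ### Bad sets and witnesses -/

/-- `C` is bad for `D` if no vertex outside of `C` has the same neighbours in `C` as prescribed
by `D`. -/
def BadSet (G : SimpleGraph V) (D C : Set V) : Prop :=
  ∀ y, (∀ z ∈ C, (z ∈ D ↔ G.Adj z y)) → y ∈ C

theorem exists_wit (G : SimpleGraph V) (D : Set V) :
    ∃ C, BadSet G D C ∧ ∀ C', BadSet G D C' → #C ≤ #C' := by
  obtain ⟨c, ⟨C, hC, rfl⟩, hmin⟩ := WellFounded.has_min
    (wellFounded_lt : WellFounded ((· < ·) : Cardinal.{u} → Cardinal.{u} → Prop))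
    {c | ∃ C, BadSet G D C ∧ #C = c} ⟨_, Set.univ, fun y _ => mem_univ y, rfl⟩
  exact ⟨C, hC, fun C' hC' => not_lt.1 (hmin _ ⟨C', hC', rfl⟩)⟩

/-- A bad set for `D` of minimal cardinality. -/
noncomputable def wit (G : SimpleGraph V) (D : Set V) : Set V := Classical.choose (exists_wit G D)

theorem wit_bad (G : SimpleGraph V) (D : Set V) : BadSet G D (wit G D) :=
  (Classical.choose_spec (exists_wit G D)).1

theorem wit_le (G : SimpleGraph V) {D C : Set V} (hC : BadSet G D C) : #(wit G D) ≤ #C :=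
  (Classical.choose_spec (exists_wit G D)).2 C hC

/-- Vertices realising all possible traces on `F`. -/
noncomputable def picks (G : SimpleGraph V) (F : Finset V) : Set V :=
  Set.range fun T : {T : Finset V // T ⊆ F ∧ ∃ a, ∀ b ∈ F, (G.Adj b a ↔ b ∈ T)} =>
    Classical.choose T.2.2

theorem card_picks_le (G : SimpleGraph V) (F : Finset V) : #(picks G F) ≤ ℵ₀ := by
  classical
  refine mk_range_le.trans ?_
  have : Finite {T : Finset V // T ⊆ F ∧ ∃ a, ∀ b ∈ F, (G.Adj b a ↔ b ∈ T)} := by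
    have hfin : {T : Finset V | T ⊆ F}.Finite :=
      (Finset.finite_toSet F.powerset).subset fun T hT => by simpa using hT
    exact (hfin.subset fun T hT => hT.1 :
      {T : Finset V | T ⊆ F ∧ ∃ a, ∀ b ∈ F, (G.Adj b a ↔ b ∈ T)}.Finite).to_subtype
  exact (lt_aleph0_of_finite _).le

theorem exists_pick (G : SimpleGraph V) (F : Finset V) (x : V) :
    ∃ a ∈ picks G F, Same G F a x := by
  classical
  let T : Finset V := F.filter fun b => G.Adj b x
  have hT : T ⊆ F ∧ ∃ a, ∀ b ∈ F, (G.Adj b a ↔ b ∈ T) :=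
    ⟨Finset.filter_subset _ _, x, fun b hb => by simp [T, hb]⟩
  refine ⟨Classical.choose hT.2, ⟨⟨T, hT⟩, rfl⟩, fun b hb => ?_⟩
  have := Classical.choose_spec hT.2 b hb
  rw [this]
  simp [T, hb]

theorem finite_defBy (G : SimpleGraph V) (F : Finset V) : {D : Set V | DefBy G F D}.Finite := by
  classical
  let code : Set V → Set (Set V) := fun D => {T | ∃ y ∈ D, T = {b | b ∈ F ∧ G.Adj b y}}
  have hsub : code '' {D : Set V | DefBy G F D} ⊆ 𝒫 (𝒫 (F : Set V)) := by
    rintro _ ⟨D, _, rfl⟩ T ⟨y, _, rfl⟩ b hb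
    exact hb.1
  have hfin : (𝒫 (𝒫 (F : Set V))).Finite := (F.finite_toSet.finite_subsets).finite_subsets
  refine Set.Finite.of_finite_image (hfin.subset hsub) ?_
  have key : ∀ D D' : Set V, DefBy G F D' → code D = code D' → D ⊆ D' := by
    intro D D' hD' h y hy
    have h1 : {b | b ∈ F ∧ G.Adj b y} ∈ code D' := by
      rw [← h]
      exact ⟨y, hy, rfl⟩
    obtain ⟨y', hy', h2⟩ := h1
    refine (hD' y y' fun b hb => ?_).2 hy'
    have h3 := Set.ext_iff.1 h2 b
    simp only [mem_ofPred_eq] at h3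
    constructor
    · intro h4
      exact (h3.1 ⟨hb, h4⟩).2
    · intro h4
      exact (h3.2 ⟨hb, h4⟩).2
  intro D hD D' hD' h
  exact Set.Subset.antisymm (key D D' hD' h) (key D' D hD h.symm)

/-- The operation used for the hulls. -/
noncomputable def op (G : SimpleGraph V) (μ : Cardinal.{u}) (F : Finset V) : Set V :=
  picks G F ∪ ⋃ D : {D : Set V // DefBy G F D ∧ #(wit G D) ≤ μ}, wit G D.1

theorem op_mono (G : SimpleGraph V) {μ μ' : Cardinal.{u}} (h : μ ≤ μ') (F : Finset V) :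
    op G μ F ⊆ op G μ' F := by
  rintro x (hx | hx)
  · exact Or.inl hx
  · obtain ⟨D, hD⟩ := mem_iUnion.1 hx
    exact Or.inr (mem_iUnion.2 ⟨⟨D.1, D.2.1, D.2.2.trans h⟩, hD⟩)

theorem card_op_le (G : SimpleGraph V) {μ : Cardinal.{u}} (hμ : ℵ₀ ≤ μ) (F : Finset V) :
    #(op G μ F) ≤ μ := by
  refine (mk_union_le _ _).trans ?_
  have h1 : #(picks G F) ≤ μ := (card_picks_le G F).trans hμ
  have hfin : Finite {D : Set V // DefBy G F D ∧ #(wit G D) ≤ μ} :=
    ((finite_defBy G F).subset fun D hD => hD.1 :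
      {D : Set V | DefBy G F D ∧ #(wit G D) ≤ μ}.Finite).to_subtype
  have h2 : #(⋃ D : {D : Set V // DefBy G F D ∧ #(wit G D) ≤ μ}, wit G D.1) ≤ μ := by
    refine (mk_iUnion_le _).trans ?_
    refine (mul_le_mul' ((lt_aleph0_of_finite _).le.trans hμ)
      (ciSup_le' fun (D : {D : Set V // DefBy G F D ∧ #(wit G D) ≤ μ}) => D.2.2)).trans ?_
    rw [mul_eq_self hμ]
  refine (add_le_add h1 h2).trans ?_
  rw [add_eq_self hμ]

/-- The hull of `S` for the cardinal `μ`. -/
noncomputable def H (G : SimpleGraph V) (μ : Cardinal.{u}) (S : Set V) : Set V := hull (op G μ) S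

theorem H_closed (G : SimpleGraph V) (μ : Cardinal.{u}) (S : Set V) : Closed G (H G μ S) := by
  intro F hF x
  obtain ⟨a, ha, hax⟩ := exists_pick G F x
  exact ⟨a, hull_closed _ _ F hF (Or.inl ha), hax⟩

/-- The set `D` is realised over all small sets. -/
def Large (G : SimpleGraph V) (μ : Cardinal.{u}) (D : Set V) : Prop :=
  ∀ C : Set V, #C ≤ μ → ∃ y, y ∉ C ∧ ∀ z ∈ C, (z ∈ D ↔ G.Adj z y)

theorem large_of_not_mem (G : SimpleGraph V) {μ : Cardinal.{u}} {S : Set V} {D : Set V}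
    (hD : Def G (H G μ S) D) {x : V} (hx : x ∉ H G μ S)
    (hxD : ∀ z ∈ H G μ S, (z ∈ D ↔ G.Adj z x)) : Large G μ D := by
  intro C hC
  by_contra hcon
  push Not at hcon
  have hbad : BadSet G D C := by
    intro y hy
    by_contra hyC
    obtain ⟨z, hz, h⟩ := hcon y hyC
    have h' := hy z hz
    tauto
  obtain ⟨F, hF, hFD⟩ := hD
  have hsub : wit G D ⊆ H G μ S := fun z hz =>
    hull_closed _ _ F hF (Or.inr (mem_iUnion.2 ⟨⟨D, hFD, (wit_le G hbad).trans hC⟩, hz⟩))
  exact hx (hsub (wit_bad G D x fun z hz => hxD z (hsub hz)))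

/-- Generic families. -/
theorem exists_generic (G : SimpleGraph V) {μ : Cardinal.{u}} (hμ : ℵ₀ ≤ μ) {N : Set V}
    (hN : #N ≤ μ) {J : Type u} (hJ : #J ≤ μ) (D : J → Set V) (hD : ∀ j, Large G μ (D j)) :
    ∃ (r : J → J → Prop) (_ : IsWellOrder J r) (y : J → V),
      (∀ j, y j ∉ N ∧ ∀ z ∈ N, (z ∈ D j ↔ G.Adj z (y j))) ∧
      ∀ i j, r i j → y i ≠ y j ∧ (y i ∈ D j ↔ G.Adj (y i) (y j)) := by
  obtain ⟨r, hr, y, hy⟩ := Helper883_Universal.rec_choice (J := J) (V := V)
    (fun j Z y => y ∉ N ∪ Z ∧ ∀ z ∈ N ∪ Z, (z ∈ D j ↔ G.Adj z y)) (by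
      intro j Z hZ
      refine hD j (N ∪ Z) ((mk_union_le _ _).trans ?_)
      refine (add_le_add hN (hZ.trans hJ)).trans ?_
      rw [add_eq_self hμ])
  refine ⟨r, hr, y, fun j => ⟨fun h => (hy j).1 (Or.inl h), fun z hz => (hy j).2 z (Or.inl hz)⟩,
    fun i j hij => ⟨fun h => (hy j).1 (Or.inr ⟨i, hij, h.symm⟩), (hy j).2 (y i)
      (Or.inr ⟨i, hij, rfl⟩)⟩⟩

/-- A large definable set is not realised by its own elements. -/
theorem not_self (G : SimpleGraph V) (hG : ∀ S : Set V, G.IsClique S → S.Countable)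
    {μ : Cardinal.{u}} (hμ : ℵ₁ ≤ μ) {N : Set V} (hN : #N ≤ μ) {D : Set V} (hDN : Def G N D)
    (hD : Large G μ D) {x : V} (hx : ∀ z ∈ N, (z ∈ D ↔ G.Adj z x)) : x ∉ D := by
  intro hxD
  have hμ0 : ℵ₀ ≤ μ := aleph0_lt_aleph_one.le.trans hμ
  obtain ⟨r, hr, y, hy1, hy2⟩ := exists_generic G hμ0 hN (J := (ℵ₁ : Cardinal.{u}).out)
    (by rw [mk_out]; exact hμ) (fun _ => D) (fun _ => hD)
  have hyD : ∀ j, y j ∈ D := fun j =>
    (hDN.congr fun a ha => ((hy1 j).2 a ha).symm.trans (hx a ha)).2 hxD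
  have hinj : Function.Injective y := by
    intro i j hij
    by_contra hne
    rcases trichotomous_of r i j with h | h | h
    · exact (hy2 i j h).1 hij
    · exact hne h
    · exact (hy2 j i h).1 hij.symm
  have hclique : G.IsClique (Set.range y) := by
    rintro _ ⟨i, rfl⟩ _ ⟨j, rfl⟩ hne
    rcases trichotomous_of r i j with h | h | h
    · exact (hy2 i j h).2.1 (hyD i)
    · exact absurd (congrArg y h) hne
    · exact ((hy2 j i h).2.1 (hyD j)).symm
  have hc := hG _ hclique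
  rw [← le_aleph0_iff_set_countable, mk_range_eq y hinj, mk_out] at hc
  exact absurd hc (not_le.2 aleph0_lt_aleph_one)

end Pool.Agent.Helper883_Stable
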