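import Pool.Agent.Helper883_Stable.Filtration
import Pool.Agent.Helper883_Good.Union

/-!
# Good graphs contain infinite half graphs
-/

namespace Pool.Agent.Helper883_Stable

open Cardinal Set Pool.Agent.Helper883_Good

universe u

theorem bad_of_card_le {V : Type u} (G : SimpleGraph V) (h : #V ≤ 𝔠) : BadG G := by
  classical
  have h' : Cardinal.lift.{0} #V ≤ Cardinal.lift.{u} #(ℕ → Bool) := by
    simpa using h
  obtain ⟨e⟩ := Cardinal.lift_mk_le'.1 h'
  have hex : ∀ a b, a ≠ b → ∃ n, e a n ≠ e b n := by
    intro a b hab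
    by_contra hcon
    push Not at hcon
    exact hab (e.injective (funext hcon))
  refine ⟨fun a b => if h : ∃ n, e a n ≠ e b n then Nat.find h else 0, fun k x hx => ?_⟩
  have hk : ∀ i j, i < j → e (x i) k ≠ e (x j) k := by
    intro i j hij
    have h1 := (hx i j hij).2
    have hne : ∃ n, e (x i) n ≠ e (x j) n := hex _ _ (hx i j hij).1.ne
    simp only [dif_pos hne] at h1
    rw [← h1]
    exact Nat.find_spec hne
  have h1 := hk 0 1 (by norm_num)
  have h2 := hk 1 2 (by norm_num)
  have h3 := hk 0 2 (by norm_num)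
  revert h1 h2 h3
  cases e (x 0) k <;> cases e (x 1) k <;> cases e (x 2) k <;> simp

theorem exists_short_order (V : Type u) [Infinite V] :
    ∃ (_ : LinearOrder V) (_ : WellFoundedLT V), ∀ v : V, #(Iic v) < #V := by
  have h : #V = #(#V).ord.ToType := by simp
  obtain ⟨f⟩ := Cardinal.eq.1 h
  let lo : LinearOrder V := LinearOrder.lift' f f.injective
  have wf : WellFoundedLT V := ⟨InvImage.wf f wellFounded_lt⟩
  refine ⟨lo, wf, fun v => ?_⟩
  have h1 : #(Iio v) < #V := by
    have h2 : #(Iio v) ≤ #(Iio (f v)) := by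
      refine ⟨⟨fun w => ⟨f w.1, w.2⟩, ?_⟩⟩
      intro a b hab
      exact Subtype.ext (f.injective (congrArg Subtype.val hab))
    have h4 : #(Iio (f v)) < #(#V).ord.ToType := mk_Iio_lt (f v) (by simp)
    exact (h2.trans_lt h4).trans_eq h.symm
  have h3 : (Iic v : Set V) = insert v (Iio v) := by
    ext w
    simp [le_iff_eq_or_lt]
  rw [h3]
  exact mk_insert_le.trans_lt (add_lt_of_lt (infinite_iff.1 inferInstance) h1
    (one_lt_aleph0.trans_le (infinite_iff.1 inferInstance)))

theorem bad_of_not_hasHalfGraph_aux : ∀ (κ : Cardinal.{u}) (V : Type u) (G : SimpleGraph V),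
    #V = κ → (∀ S : Set V, G.IsClique S → S.Countable) → ¬ HasHalfGraph G → BadG G := by
  intro κ
  induction κ using WellFoundedLT.induction with
  | ind κ ih =>
    intro V G hV hG hH
    by_cases hc : #V ≤ 𝔠
    · exact bad_of_card_le G hc
    rw [not_le] at hc
    have hinf : Infinite V := infinite_iff.2 (aleph0_le_continuum.trans hc.le)
    obtain ⟨lo, wf, hlo⟩ := exists_short_order V
    refine step hH hG (fun v => max_lt hc (hlo v)) ?_
    intro s hs
    apply badOn_of_induce
    apply ih #s (by rw [← hV]; exact hs) s (G.induce s) rfl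
    · intro S hS
      have h1 : G.IsClique (Subtype.val '' S) := by
        rintro _ ⟨a, ha, rfl⟩ _ ⟨b, hb, rfl⟩ hab
        exact hS ha hb (fun h => hab (by rw [h]))
      exact ((hG _ h1).preimage Subtype.val_injective).mono (subset_preimage_image _ _)
    · rintro ⟨a, b, hab⟩
      exact hH ⟨fun i => (a i).1, fun i => (b i).1, hab⟩

/-- Graphs without uncountable cliques and without infinite half graphs are not good. -/
theorem bad_of_not_hasHalfGraph {V : Type u} (G : SimpleGraph V)
    (hG : NoUncountableClique G) (hH : ¬ HasHalfGraph G) : ¬ ForcesMonoClique G := by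
  obtain ⟨C, hC⟩ := bad_of_not_hasHalfGraph_aux #V V G rfl hG hH
  intro h
  obtain ⟨k, x, hx⟩ := h.exists_seq WellOrderingRel C
  exact hC k x fun i j hij => (hx i j hij).2

/-- In every countable decomposition of the edges of a good graph, some piece contains an
infinite half graph. -/
theorem exists_piece_hasHalfGraph {V : Type u} {G : SimpleGraph V} (hG : Good G)
    (E : ℕ → SimpleGraph V) (hle : ∀ n x y, (E n).Adj x y → G.Adj x y)
    (hcov : ∀ x y, G.Adj x y → ∃ n, (E n).Adj x y) : ∃ n, HasHalfGraph (E n) := by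
  obtain ⟨n, hn⟩ := hG.2.exists_of_cover E hcov
  refine ⟨n, ?_⟩
  by_contra hH
  exact bad_of_not_hasHalfGraph (E n) (hG.1.mono (hle n)) hH hn

end Pool.Agent.Helper883_Stable
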